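import Mathlib

set_option autoImplicit false

namespace Pool.Agent.Results.MP_6bd6f6_an.NotLY

open Filter Topology Set

section Defs
variable {X : Type} [MetricSpace X] (T : X → X)

/-- `N_T(U,V) ≠ ∅` for all nonempty open `U, V`. -/
def Transitive : Prop :=
  ∀ U V : Set X, IsOpen U → U.Nonempty → IsOpen V → V.Nonempty → ∃ n : ℕ, (U ∩ T^[n] ⁻¹' V).Nonempty

/-- Minimal sets. -/
def IsMinSet (M : Set X) : Prop :=
  M.Nonempty ∧ IsClosed M ∧ MapsTo T M M ∧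
    ∀ N ⊆ M, N.Nonempty → IsClosed N → MapsTo T N N → N = M

/-- M-systems: transitive with dense minimal points. -/
def MSystem : Prop := Transitive T ∧ Dense {x | ∃ M, IsMinSet T M ∧ x ∈ M}

/-- Li-Yorke sensitivity. -/
def LYSens : Prop :=
  ∃ δ : ℝ, 0 < δ ∧ ∀ x, ∀ U ∈ 𝓝 x, ∃ y ∈ U,
    liminf (fun n => dist (T^[n] x) (T^[n] y)) atTop = 0 ∧
      δ < limsup (fun n => dist (T^[n] x) (T^[n] y)) atTop
end Defs


def YY : Type := ℕ → Bool

noncomputable instance : MetricSpace YY := PiNat.metricSpace (E := fun _ : ℕ => Bool)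

instance : CompactSpace YY := inferInstanceAs (CompactSpace (ℕ → Bool))

theorem cont_ev (n : ℕ) : Continuous fun y : YY => y n := continuous_apply (A := fun _ : ℕ => Bool) n

theorem clopen_dvd (m : ℕ) (x : ℤ_[2]) : IsClopen {t : ℤ_[2] | (2 : ℤ_[2]) ^ m ∣ t - x} := by
  have h := IsUltrametricDist.isClopen_closedBall x (r := ((2 : ℕ) : ℝ) ^ (-m : ℤ)) (by positivity)
  have e : {t : ℤ_[2] | (2 : ℤ_[2]) ^ m ∣ t - x} = Metric.closedBall x (((2 : ℕ) : ℝ) ^ (-m : ℤ)) := by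
    ext t
    rw [Metric.mem_closedBall, dist_eq_norm, PadicInt.norm_le_pow_iff_mem_span_pow,
      Ideal.mem_span_singleton]
    simp
  rwa [e]

def XS : Set (ℤ_[2] × YY) :=
  {p | ∀ m n i : ℕ, i < 2 ^ m → (2 : ℤ_[2]) ^ m ∣ p.1 + n → p.2 n = true → p.2 (n + i) = true}

theorem XS_closed : IsClosed XS := by
  have e : XS = ⋂ m : ℕ, ⋂ n : ℕ, ⋂ i : ℕ, ⋂ (_ : i < 2 ^ m),
      ((Prod.fst ⁻¹' {t : ℤ_[2] | (2 : ℤ_[2]) ^ m ∣ t - (-n)})ᶜ ∪
        ((fun p : ℤ_[2] × YY => p.2 n) ⁻¹' {true})ᶜ ∪ (fun p : ℤ_[2] × YY => p.2 (n + i)) ⁻¹' {true}) := by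
    ext p
    simp only [XS, mem_ofPred_eq, mem_iInter, mem_union, mem_compl_iff, mem_preimage, sub_neg_eq_add,
      mem_singleton_iff]
    refine forall_congr' fun m => forall_congr' fun n => forall_congr' fun i => forall_congr' fun _ => ?_
    tauto
  rw [e]
  refine isClosed_iInter fun m => isClosed_iInter fun n => isClosed_iInter fun i =>
    isClosed_iInter fun _ => IsClosed.union (IsClosed.union ?_ ?_) ?_
  · exact ((clopen_dvd m _).isOpen.preimage continuous_fst).isClosed_compl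
  · exact ((isOpen_discrete _).preimage ((cont_ev n).comp continuous_snd)).isClosed_compl
  · exact (isClosed_discrete _).preimage ((cont_ev _).comp continuous_snd)

noncomputable def TT (p : XS) : XS := ⟨(p.1.1 + 1, fun n => p.1.2 (n + 1)), fun m n i hi hd hy => by
  have := p.2 m (n + 1) i hi (by rw [Nat.cast_succ, ← add_assoc, add_right_comm]; exact hd) hy
  show p.1.2 (n + i + 1) = true
  rwa [Nat.add_right_comm]⟩

theorem TT_cont : Continuous TT := by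
  refine Continuous.subtype_mk (Continuous.prodMk (by fun_prop) ?_) _
  exact continuous_pi (A := fun _ : ℕ => Bool) fun n =>
    (cont_ev _).comp (continuous_snd.comp continuous_subtype_val)

theorem TT_surj : Function.Surjective TT := by
  intro p
  refine ⟨⟨(p.1.1 - 1, fun n => Nat.casesOn n false fun k => p.1.2 k), fun m n i hi hd hy => ?_⟩, ?_⟩
  · cases n with
    | zero => exact absurd hy (by simp)
    | succ k =>
      have := p.2 m k i hi (by
        rw [show p.1.1 + k = p.1.1 - 1 + ((k + 1 : ℕ) : ℤ_[2]) by push_cast; ring]; exact hd) hy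
      rw [Nat.add_right_comm]
      exact this
  · exact Subtype.ext (Prod.ext (sub_add_cancel _ _) rfl)

theorem TT_fst (n : ℕ) (p : XS) : (TT^[n] p).1.1 = p.1.1 + n := by
  induction n with
  | zero => simp
  | succ k ih => rw [Function.iterate_succ_apply']; show (TT^[k] p).1.1 + 1 = _; rw [ih]; push_cast; ring

theorem dense_add (a : ℤ_[2]) {W : Set ℤ_[2]} (hW : IsOpen W) (h : W.Nonempty) : ∃ n : ℕ, a + n ∈ W := by
  obtain ⟨w, hw⟩ := h
  exact PadicInt.denseRange_natCast.exists_mem_open (s := (fun t => a + t) ⁻¹' W)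
    (hW.preimage (by fun_prop)) ⟨w - a, by simpa using hw⟩

/-- continuous equivariant sections -/
def Sec (g : ℤ_[2] → XS) : Prop := Continuous g ∧ (∀ t, g (t + 1) = TT (g t)) ∧ ∀ t, (g t).1.1 = t

theorem Sec.iter {g : ℤ_[2] → XS} (h : Sec g) (t : ℤ_[2]) (n : ℕ) : TT^[n] (g t) = g (t + n) := by
  induction n with
  | zero => simp
  | succ k ih => rw [Function.iterate_succ_apply', ih, ← h.2.1]; push_cast; rw [add_assoc]

theorem Sec.min {g : ℤ_[2] → XS} (h : Sec g) : IsMinSet TT (range g) := by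
  refine ⟨range_nonempty g, (isCompact_range h.1).isClosed, ?_, fun N hN ⟨x, hx⟩ hc hm => ?_⟩
  · rintro _ ⟨t, rfl⟩
    exact ⟨t + 1, h.2.1 t⟩
  · refine hN.antisymm ?_
    obtain ⟨a, rfl⟩ := hN hx
    rintro _ ⟨t, rfl⟩
    by_contra hn
    obtain ⟨n, hn⟩ := dense_add a (hc.isOpen_compl.preimage h.1) ⟨t, hn⟩
    exact hn (h.iter a n ▸ hm.iterate n hx)

theorem sec_of (Φ : Set ℤ_[2]) (hc : IsClopen Φ)
    (h : ∀ (m i : ℕ) (t : ℤ_[2]), i < 2 ^ m → (2 : ℤ_[2]) ^ m ∣ t → t ∈ Φ → t + i ∈ Φ) :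
    ∃ g, Sec g ∧ ∀ t (n : ℕ), (g t).1.2 n = true ↔ t + n ∈ Φ := by
  refine ⟨fun t => ⟨(t, fun n => Φ.boolIndicator (t + n)), fun m n i hi hd hy => ?_⟩, ⟨?_, ?_, fun _ => rfl⟩,
    fun t n => (Φ.mem_iff_boolIndicator _).symm⟩
  · have := h m i _ hi hd ((Φ.mem_iff_boolIndicator _).mpr hy)
    refine (Φ.mem_iff_boolIndicator _).mp ?_
    push_cast
    rwa [← add_assoc]
  · refine Continuous.subtype_mk (Continuous.prodMk continuous_id ?_) _
    exact continuous_pi (A := fun _ : ℕ => Bool) fun n =>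
      ((continuous_boolIndicator_iff_isClopen Φ).mpr hc).comp (by fun_prop)
  · intro t
    refine Subtype.ext (Prod.ext rfl (funext fun n => ?_))
    show Φ.boolIndicator (t + 1 + n) = Φ.boolIndicator (t + ((n + 1 : ℕ) : ℤ_[2]))
    push_cast
    rw [add_assoc, add_comm (1 : ℤ_[2])]

theorem blk {s e m i : ℕ} (h0 : 0 < s) (h1 : s < 2 ^ e) (hd : 2 ^ m ∣ s) (hi : i < 2 ^ m) :
    s + i < 2 ^ e := by
  have h2 : m ≤ e := ((Nat.pow_lt_pow_iff_right one_lt_two).mp ((Nat.le_of_dvd h0 hd).trans_lt h1)).le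
  have h3 := Nat.le_of_dvd (by omega) (Nat.dvd_sub (pow_dvd_pow 2 h2) hd)
  omega

theorem cast_dvd {m a b : ℕ} (h : (2 : ℤ_[2]) ^ m ∣ (a : ℤ_[2]) - b) : (2 : ℤ) ^ m ∣ (a : ℤ) - b := by
  have := (PadicInt.pow_p_dvd_int_iff (p := 2) m ((a : ℤ) - b)).mp (by push_cast; exact h)
  exact_mod_cast this

theorem cast_eq {m a b : ℕ} (h : (2 : ℤ_[2]) ^ m ∣ (a : ℤ_[2]) - b) (ha : a < 2 ^ m) (hb : b < 2 ^ m) :
    a = b := by
  have h1 := Int.eq_zero_of_abs_lt_dvd (cast_dvd h) (by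
    have h2 : (a : ℤ) < 2 ^ m := by exact_mod_cast ha
    have h3 : (b : ℤ) < 2 ^ m := by exact_mod_cast hb
    rw [abs_lt]; constructor <;> omega)
  omega

/-- closure of a seed set -/
def Cl (S : Set ℕ) (x : ℕ) : Prop := ∃ s ∈ S, ∃ m i, 2 ^ m ∣ s ∧ i < 2 ^ m ∧ x = s + i

theorem sec_seed (S : Set ℕ) (M : ℕ) (h0 : ∀ s ∈ S, 0 < s) :
    ∃ g, Sec g ∧ ∀ a n : ℕ, a + n < 2 ^ M → ((g a).1.2 n = true ↔ Cl S (a + n)) := by
  obtain ⟨g, hg, hg2⟩ := sec_of (⋃ x ∈ {x | x < 2 ^ M ∧ Cl S x}, {t | (2 : ℤ_[2]) ^ M ∣ t - (x : ℕ)})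
    (Set.Finite.isClopen_biUnion ((finite_lt_nat _).subset fun x hx => hx.1) fun x _ => clopen_dvd M _)
    (fun m i t hi hd ht => by
      simp only [mem_iUnion, mem_ofPred_eq, exists_prop] at ht ⊢
      obtain ⟨x, ⟨hx, s, hs, k, j, hk, hj, rfl⟩, ht⟩ := ht
      have hs0 := h0 s hs
      have hm : 2 ^ (min m M) ∣ s + j := by
        have h1 : (2 : ℤ_[2]) ^ (min m M) ∣ ((s + j : ℕ) : ℤ_[2]) - (0 : ℕ) := by
          have := dvd_sub ((pow_dvd_pow 2 (min_le_left m M)).trans hd)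
            ((pow_dvd_pow 2 (min_le_right m M)).trans ht)
          simpa using this
        have := cast_dvd h1
        rw [Nat.cast_zero, sub_zero] at this
        exact_mod_cast this
      have hm2 : min m M = m := by
        have := (Nat.pow_lt_pow_iff_right one_lt_two).mp ((Nat.le_of_dvd (by omega) hm).trans_lt hx)
        omega
      rw [hm2] at hm
      refine ⟨s + j + i, ⟨blk (by omega) hx hm hi, ?_⟩, by push_cast at ht ⊢; rwa [add_sub_add_right_eq_sub]⟩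
      rcases Nat.eq_zero_or_pos j with rfl | hj0
      · exact ⟨s, hs, m, i, hm, hi, rfl⟩
      · refine ⟨s, hs, k, j + i, hk, ?_, add_assoc _ _ _⟩
        rcases le_total m k with h | h
        · exact blk hj0 hj ((Nat.dvd_add_right ((pow_dvd_pow 2 h).trans hk)).mp hm) hi
        · have := Nat.le_of_dvd hj0 ((Nat.dvd_add_right hk).mp ((pow_dvd_pow 2 h).trans hm))
          omega)
  refine ⟨g, hg, fun a n ha => ?_⟩
  rw [hg2]
  simp only [mem_iUnion, mem_ofPred_eq, exists_prop]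
  constructor
  · rintro ⟨x, ⟨hx, hc⟩, hd⟩
    rwa [cast_eq (a := a + n) (by push_cast; exact hd) ha hx]
  · exact fun h => ⟨a + n, ⟨ha, h⟩, by simp⟩

theorem win (p : XS) {K a n n' m i : ℕ} (ha : (2 : ℤ_[2]) ^ K ∣ p.1.1 - a) (hn : n < 2 ^ K)
    (hy : p.1.2 n' = true) (hd : 2 ^ m ∣ a + n') (hi : i < 2 ^ m) (e : a + n = a + n' + i) :
    p.1.2 n = true := by
  rw [show n = n' + i by omega]
  refine p.2 (min m K) n' i ?_ ?_ hy
  · rcases le_total m K with h | h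
    · rwa [min_eq_left h]
    · rw [min_eq_right h]; omega
  · have h1 : (2 : ℤ_[2]) ^ m ∣ ((a + n' : ℕ) : ℤ_[2]) := by exact_mod_cast Nat.cast_dvd_cast (α := ℤ_[2]) hd
    have := dvd_add ((pow_dvd_pow 2 (min_le_right m K)).trans ha) ((pow_dvd_pow 2 (min_le_left m K)).trans h1)
    rwa [Nat.cast_add, ← add_assoc, sub_add_cancel] at this

theorem two_win (p q : XS) (K : ℕ) : ∃ g, Sec g ∧ ∃ a b : ℕ,
    ((2 : ℤ_[2]) ^ K ∣ p.1.1 - a ∧ ∀ n < 2 ^ K, (g a).1.2 n = p.1.2 n) ∧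
    ((2 : ℤ_[2]) ^ K ∣ q.1.1 - b ∧ ∀ n < 2 ^ K, (g b).1.2 n = q.1.2 n) := by
  have hap : ∀ (z : ℤ_[2]) (c : ℕ), (2 : ℤ_[2]) ^ K ∣ z - ((z.appr K + c * 2 ^ K : ℕ) : ℤ_[2]) := by
    intro z c
    have h1 := Ideal.mem_span_singleton.mp (PadicInt.appr_spec K z)
    have h2 : (2 : ℤ_[2]) ^ K ∣ (c : ℤ_[2]) * 2 ^ K := dvd_mul_left _ _
    push_cast at h1 ⊢
    rw [← sub_sub]
    exact dvd_sub h1 h2
  set a := p.1.1.appr K + 1 * 2 ^ K with ha
  set b := q.1.1.appr K + 5 * 2 ^ K with hb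
  have l1 : p.1.1.appr K < 2 ^ K := PadicInt.appr_lt _ _
  have l2 : q.1.1.appr K < 2 ^ K := PadicInt.appr_lt _ _
  have e3 : 2 ^ (K + 3) = 8 * 2 ^ K := by ring
  have e2 : 2 ^ (K + 2) = 4 * 2 ^ K := by ring
  obtain ⟨g, hg, hg2⟩ := sec_seed ({s | ∃ n < 2 ^ K, p.1.2 n = true ∧ s = a + n} ∪
    {s | ∃ n < 2 ^ K, q.1.2 n = true ∧ s = b + n}) (K + 3) (by
      rintro s (⟨n, hn, -, rfl⟩ | ⟨n, hn, -, rfl⟩) <;> omega)
  refine ⟨g, hg, a, b, ⟨hap _ 1, fun n hn => ?_⟩, ⟨hap _ 5, fun n hn => ?_⟩⟩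
  · rw [Bool.eq_iff_iff, hg2 _ _ (by omega)]
    refine ⟨?_, fun h => ⟨_, Or.inl ⟨n, hn, h, rfl⟩, 0, 0, by simp, by simp, rfl⟩⟩
    rintro ⟨s, ⟨n', hn', hy, rfl⟩ | ⟨n', hn', hy, rfl⟩, m, i, hd, hi, e⟩
    · exact win p (hap _ 1) hn hy hd hi e
    · omega
  · rw [Bool.eq_iff_iff, hg2 _ _ (by omega)]
    refine ⟨?_, fun h => ⟨_, Or.inr ⟨n, hn, h, rfl⟩, 0, 0, by simp, by simp, rfl⟩⟩
    rintro ⟨s, ⟨n', hn', hy, rfl⟩ | ⟨n', hn', hy, rfl⟩, m, i, hd, hi, e⟩
    · have := blk (e := K + 2) (by omega) (by omega) hd hi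
      omega
    · exact win q (hap _ 5) hn hy hd hi e

theorem conv (p : XS) (x : ℕ → XS) (h1 : ∀ K, (2 : ℤ_[2]) ^ K ∣ p.1.1 - (x K).1.1)
    (h2 : ∀ K, ∀ n < 2 ^ K, (x K).1.2 n = p.1.2 n) : Tendsto x atTop (𝓝 p) := by
  rw [tendsto_subtype_rng]
  refine Tendsto.prodMk_nhds ?_ ?_
  · rw [tendsto_iff_norm_sub_tendsto_zero]
    refine squeeze_zero (fun _ => norm_nonneg _) (fun K => ?_)
      (tendsto_pow_atTop_nhds_zero_of_lt_one (r := 1 / 2) (by norm_num) (by norm_num))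
    have := (PadicInt.norm_le_pow_iff_mem_span_pow (p := 2) _ K).mpr
      (Ideal.mem_span_singleton.mpr (by exact_mod_cast h1 K))
    rw [norm_sub_rev]
    refine this.trans (le_of_eq ?_)
    simp
  · refine (tendsto_pi_nhds (A := fun _ : ℕ => Bool)).mpr fun n => tendsto_const_nhds.congr' ?_
    filter_upwards [eventually_ge_atTop n] with K hK
    exact (h2 K n (hK.trans_lt Nat.lt_two_pow_self)).symm

theorem meet {U V : Set XS} (hU : IsOpen U) (hU0 : U.Nonempty) (hV : IsOpen V) (hV0 : V.Nonempty) :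
    ∃ g, Sec g ∧ ∃ a b, g a ∈ U ∧ g b ∈ V := by
  obtain ⟨p, hp⟩ := hU0
  obtain ⟨q, hq⟩ := hV0
  choose g hg a b h1 h2 using two_win p q
  have c1 := conv p (fun K => g K (a K)) (fun K => by rw [(hg K).2.2]; exact (h1 K).1) fun K => (h1 K).2
  have c2 := conv q (fun K => g K (b K)) (fun K => by rw [(hg K).2.2]; exact (h2 K).1) fun K => (h2 K).2
  obtain ⟨K, k1, k2⟩ := ((c1.eventually (hU.mem_nhds hp)).and (c2.eventually (hV.mem_nhds hq))).exists
  exact ⟨g K, hg K, _, _, k1, k2⟩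

noncomputable def x1 : XS := ⟨(0, fun _ => true), fun _ _ _ _ _ _ => rfl⟩
noncomputable def x0 : XS := ⟨(0, fun _ => false), fun _ _ _ _ _ h => h⟩

theorem result : ∃ (X : Type) (_ : MetricSpace X) (T : X → X), CompactSpace X ∧ Nontrivial X ∧
    (∀ x : X, ¬ IsOpen ({x} : Set X)) ∧ Continuous T ∧ Function.Surjective T ∧ MSystem T ∧
    ¬ IsMinSet T univ ∧ ¬ LYSens T := by
  haveI hc : CompactSpace XS := isCompact_iff_compactSpace.mp XS_closed.isCompact
  have hev : ∀ n, Continuous fun p : XS => p.1.2 n := fun n =>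
    (cont_ev _).comp (continuous_snd.comp continuous_subtype_val)
  refine ⟨XS, inferInstance, TT, hc, ⟨x0, x1, fun h => ?_⟩, fun x hx => ?_, TT_cont, TT_surj, ⟨?_, ?_⟩,
    fun h => ?_, ?_⟩
  · exact absurd (congrArg (fun p : XS => p.1.2 0) h) Bool.false_ne_true
  · obtain ⟨g, hg, a, -, ha, -⟩ := meet hx (singleton_nonempty x) hx (singleton_nonempty x)
    obtain ⟨n, hn⟩ := dense_add (a + 1) (hx.preimage hg.1) ⟨a, ha⟩
    have e : g (a + 1 + n) = g a := (mem_singleton_iff.mp hn).trans (mem_singleton_iff.mp ha).symm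
    have e2 := congrArg (fun p : XS => p.1.1) e
    simp only [hg.2.2, add_assoc, add_eq_left] at e2
    exact absurd (show ((n + 1 : ℕ) : ℤ_[2]) = 0 by push_cast; rwa [add_comm]) (Nat.cast_ne_zero.mpr (by omega))
  · intro U V hU hU0 hV hV0
    obtain ⟨g, hg, a, b, ha, hb⟩ := meet hU hU0 hV hV0
    obtain ⟨n, hn⟩ := dense_add a (hV.preimage hg.1) ⟨b, hb⟩
    exact ⟨n, g a, ha, by rw [mem_preimage, hg.iter]; exact hn⟩
  · rw [dense_iff_inter_open]
    intro U hU hU0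
    obtain ⟨g, hg, a, -, ha, -⟩ := meet hU hU0 hU hU0
    exact ⟨g a, ha, _, hg.min, a, rfl⟩
  · have := h.2.2.2 {p | ∀ n, p.1.2 n = false} (subset_univ _) ⟨x0, fun _ => rfl⟩ (by
      rw [ofPred_forall]
      exact isClosed_iInter fun n => isClosed_eq (hev n) continuous_const) fun p hp n => hp (n + 1)
    have h1 : x1 ∈ {p : XS | ∀ n, p.1.2 n = false} := this ▸ mem_univ _
    exact absurd (h1 0) (by simp [x1])
  · rintro ⟨δ, hδ, h⟩
    obtain ⟨y, hy, h1, h2⟩ := h x1 {p | p.1.2 0 = true}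
      (((isOpen_discrete {true}).preimage (hev 0)).mem_nhds rfl)
    have hz : y.1.1 = 0 := by
      have h3 : ‖y.1.1‖ ≤ liminf (fun n => dist (TT^[n] x1) (TT^[n] y)) atTop := by
        refine le_liminf_of_le (isCoboundedUnder_ge_of_le _ (x := Metric.diam (univ : Set XS)) fun n =>
          Metric.dist_le_diam_of_mem isCompact_univ.isBounded trivial trivial)
          (Eventually.of_forall fun n => ?_)
        rw [Subtype.dist_eq, Prod.dist_eq, TT_fst, TT_fst, dist_add_right]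
        refine le_trans (le_of_eq ?_) (le_max_left _ _)
        simp [x1]
      rw [h1] at h3
      exact norm_le_zero_iff.mp h3
    have e : y = x1 := by
      refine Subtype.ext (Prod.ext hz (funext fun n => ?_))
      have := y.2 n 0 n Nat.lt_two_pow_self (by simp [hz]) hy
      rwa [zero_add] at this
    simp only [e, dist_self, limsup_const] at h2
    exact lt_asymm hδ h2

end Pool.Agent.Results.MP_6bd6f6_an.NotLY
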